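import Pool.Agent.Helper60.TG.Goals

/-! # TG-TRL (MP_a41896_nt): the value of `zd D P` is a rational combination of the `zd D v_j` -/

set_option autoImplicit false

open MvPolynomial

namespace Pool.Agent.Helper32.TG.TRL

open WeierstrassCurve
open Pool.Agent.Helper29.BL Pool.Agent.Helper92.Ru Pool.Agent.Helper42.SG
open Pool.Agent.Helper60.T3 (WL IP zd)
open Pool.Agent.Helper42.TN (NonIsog NoCM)
open Pool.Agent.Helper92.TN (acl ACLA)
open Pool.Agent.Helper60.TG

theorem ps_sq {F : Type} [Field F] {W : Affine F} (P : W.Point) (hP : P ≠ 0) :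
    ps P ^ 2 = Bf W (xc P) := by
  cases P with
  | zero => exact absurd rfl hP
  | some x y h =>
    have he := (W.equation_iff x y).1 h.1
    show (2 * y + W.a₁ * x + W.a₃) ^ 2 = 4 * x ^ 3 + W.b₂ * x ^ 2 + 2 * W.b₄ * x + W.b₆
    simp only [WeierstrassCurve.b₂, WeierstrassCurve.b₄, WeierstrassCurve.b₆]
    linear_combination 4 * he

/-- The elements of `C` and the `x_j`, `j ∈ B`. -/
def SS {K L τ : Type} [Field K] [Field L] [Algebra K L] (C : IntermediateField K L) (x : τ → L)
    (B : Finset τ) : Set L := (C : Set L) ∪ x '' (B : Set τ)

theorem t (hDALG : DALG) (hS : STEPS) (hN : STEPN) (hACLA : ACLA) : TRL := by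
  intro K L _ _ _ _ _ _ ι _ E hE hNI τ _ _ cl v C D hCalg hCD hv hzv c P0 hCM hP0 hzP0 hal0
  haveI : ∀ c, (E c).IsElliptic := hE
  obtain ⟨x, hx⟩ : ∃ x : τ → L, x = fun j => xc (v j) := ⟨_, rfl⟩
  -- the induction
  have main : ∀ (B : Finset τ) (P : (WL L (E c)).Point), P ≠ 0 → zd D P ∈ C →
      xc P ∈ acl K (SS C x B) →
      ∃ (N : ℕ) (n : τ → ℤ), N ≠ 0 ∧ (∀ j, cl j ≠ c → n j = 0) ∧
        (N : L) * zd D P = ∑ j, (n j : L) * zd D (v j) := by
    intro B
    induction B using Finset.induction_on with
    | empty =>
      intro P hP hzP hal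
      have h1 := (hACLA K L (SS C x ∅) ∅).1 (xc P)
      have h2 : IntermediateField.adjoin K (SS C x ∅) = C := by
        unfold SS
        rw [Finset.coe_empty, Set.image_empty, Set.union_empty]
        exact IntermediateField.adjoin_self K C
      have h3 : IsAlgebraic C (xc P) := by
        have h4 := h1.1 hal
        rw [h2] at h4
        exact h4
      have h5 : D (xc P) = 0 := hCD _ (hCalg _ h3)
      refine ⟨1, fun _ => 0, one_ne_zero, fun _ _ => rfl, ?_⟩
      have h6 : zd D P = 0 := by
        unfold zd
        rw [h5, zero_div]
      simp [h6]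
    | insert b B hb IH =>
      intro P hP hzP hal
      obtain ⟨F, hF⟩ : ∃ F : IntermediateField K L, F = acl K (SS C x B) := ⟨_, rfl⟩
      obtain ⟨a1, a2, a3, -, -, -, a7⟩ := hACLA K L (SS C x B) ∅
      have hU : ∀ T : Set L, acl K ((F : Set L) ∪ T) = acl K (SS C x B ∪ T) := by
        intro T
        rw [hF]
        exact (hACLA K L (SS C x B) T).2.2.2.1
      have hSF : SS C x B ⊆ (F : Set L) := by
        rw [hF]
        exact a2
      have hCF : ∀ z ∈ C, z ∈ F := fun z hz => hSF (Or.inl hz)
      have hFt : ∀ z, z ∈ F ∨ Transcendental F z := by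
        rw [hF]
        exact a7 inferInstance
      have hFalg : ∀ z : L, IsAlgebraic F z → z ∈ F := by
        intro z hz
        rcases hFt z with h | h
        · exact h
        · exact absurd hz h
      -- `D` maps `F` to `F`
      have hDF : ∀ z ∈ F, D z ∈ F := by
        intro z hz
        have h4 := (hDALG K L D).2.2.2 (SS C x B) ?_ z ?_
        · rw [hF]
          exact (a1 _).2 h4
        · rintro y (hy | ⟨j, hj, rfl⟩)
          · rw [hCD y hy]
            exact isAlgebraic_zero
          · obtain ⟨hv1, hv2⟩ := hv j
            have hxj : x j = xc (v j) := by rw [hx]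
            have h5 : D (x j) = zd D (v j) * ps (v j) := by
              unfold zd
              rw [hxj, div_mul_cancel₀ _ hv2]
            rw [h5]
            have hmem : ∀ y, y ∈ SS C x B →
                IsAlgebraic (IntermediateField.adjoin K (SS C x B)) y := by
              intro y hy
              exact isAlgebraic_algebraMap
                (⟨y, IntermediateField.subset_adjoin K _ hy⟩ :
                  IntermediateField.adjoin K (SS C x B))
            refine IsAlgebraic.mul (hmem _ (Or.inl (hzv j))) ?_
            have h6 : IsAlgebraic (IntermediateField.adjoin K (SS C x B)) (ps (v j) ^ 2) := by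
              rw [ps_sq (v j) hv1]
              have h7 : Bf (WL L (E (cl j))) (xc (v j)) ∈
                  IntermediateField.adjoin K (SS C x B) := by
                have hxm : xc (v j) ∈ IntermediateField.adjoin K (SS C x B) := by
                  rw [← hxj]
                  exact IntermediateField.subset_adjoin K _ (Or.inr ⟨j, hj, rfl⟩)
                have e2 : (WL L (E (cl j))).b₂ = algebraMap K L (E (cl j)).b₂ :=
                  WeierstrassCurve.map_b₂ _ _
                have e4 : (WL L (E (cl j))).b₄ = algebraMap K L (E (cl j)).b₄ :=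
                  WeierstrassCurve.map_b₄ _ _
                have e6 : (WL L (E (cl j))).b₆ = algebraMap K L (E (cl j)).b₆ :=
                  WeierstrassCurve.map_b₆ _ _
                unfold Bf
                rw [e2, e4, e6]
                have hk : ∀ r : K, algebraMap K L r ∈ IntermediateField.adjoin K (SS C x B) :=
                  fun r => IntermediateField.algebraMap_mem _ r
                have h4m : (4 : L) ∈ IntermediateField.adjoin K (SS C x B) := by
                  have := hk 4
                  rwa [map_ofNat] at this
                have h2m : (2 : L) ∈ IntermediateField.adjoin K (SS C x B) := by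
                  have := hk 2
                  rwa [map_ofNat] at this
                exact add_mem (add_mem (add_mem (mul_mem h4m (pow_mem hxm 3))
                  (mul_mem (hk _) (pow_mem hxm 2))) (mul_mem (mul_mem h2m (hk _)) hxm)) (hk _)
              exact isAlgebraic_algebraMap
                (⟨_, h7⟩ : IntermediateField.adjoin K (SS C x B))
            exact IsAlgebraic.of_pow (by norm_num) h6
        · rw [hF] at hz
          exact (a1 _).1 hz
      have hins : SS C x (insert b B) = SS C x B ∪ {x b} := by
        unfold SS
        rw [Finset.coe_insert, Set.image_insert_eq, Set.union_assoc, Set.union_singleton]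
      rw [hins] at hal
      by_cases hbF : x b ∈ F
      · refine IH P hP hzP ?_
        have e1 : acl K (SS C x B ∪ {x b}) = acl K (SS C x B) := by
          have e2 := hU {x b}
          have e3 := hU ∅
          rw [Set.union_empty, Set.union_empty] at e3
          have e4 : (F : Set L) ∪ {x b} = (F : Set L) :=
            Set.union_eq_left.2 (Set.singleton_subset_iff.2 hbF)
          rw [e4] at e2
          rw [← e2, e3]
        rw [e1] at hal
        exact hal
      have htr : Transcendental F (xc (v b)) := by
        rcases hFt (x b) with h | h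
        · exact absurd h hbF
        · rw [hx] at h
          exact h
      have halP : IsAlgebraic (IntermediateField.adjoin K ((F : Set L) ∪ {xc (v b)})) (xc P) := by
        rw [← hU {x b}] at hal
        have h1 := ((hACLA K L ((F : Set L) ∪ {x b}) ∅).1 (xc P)).1 hal
        rw [hx] at h1
        exact h1
      -- the one-variable step
      have hstep : ∃ (N : ℕ) (φ : ℤ) (Q : (WL L (E c)).Point), N ≠ 0 ∧
          (cl b ≠ c → φ = 0) ∧ IP (F : Set L) Q ∧
          zd D Q = N * zd D P - φ * zd D (v b) := by
        by_cases hbc : cl b = c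
        · subst hbc
          obtain ⟨N, φ, Q, h1, h2, h3⟩ := hS K L (E (cl b)) (hCM b rfl) F D hFalg hDF (v b) P
            (hv b).1 htr (hCF _ (hzv b)) hP (hCF _ hzP) halP
          exact ⟨N, φ, Q, h1, fun h => absurd rfl h, h2, h3⟩
        · obtain ⟨N, Q, h1, h2, h3⟩ := hN K L (E (cl b)) (E c) (hNI _ _ hbc) F D hFalg hDF
            (v b) P (hv b).1 htr (hCF _ (hzv b)) hP (hCF _ hzP) halP
          exact ⟨N, 0, Q, h1, fun _ => rfl, h2, by rw [h3]; simp⟩
      obtain ⟨N, φ, Q, hN0, hφ, hQF, hQ⟩ := hstep
      have hsum : ∀ a : ℤ, ∑ j, ((Pi.single b a : τ → ℤ) j : L) * zd D (v j) =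
          (a : L) * zd D (v b) := by
        intro a
        rw [Finset.sum_eq_single b]
        · rw [Pi.single_eq_same]
        · intro j _ hj
          rw [Pi.single_eq_of_ne hj]
          simp
        · intro h
          exact absurd (Finset.mem_univ b) h
      have hsupp : ∀ a : ℤ, (cl b ≠ c → a = 0) → ∀ j, cl j ≠ c →
          (Pi.single b a : τ → ℤ) j = 0 := by
        intro a ha j hj
        by_cases hjb : j = b
        · subst hjb
          rw [Pi.single_eq_same]
          exact ha hj
        · rw [Pi.single_eq_of_ne hjb]
      by_cases hQ0 : Q = 0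
      · have h0 : zd D Q = 0 := by
          rw [hQ0]
          unfold zd
          rw [xc_zero, map_zero, zero_div]
        refine ⟨N, Pi.single b φ, hN0, hsupp φ hφ, ?_⟩
        rw [hsum]
        rw [h0] at hQ
        linear_combination -hQ
      · have hzQ : zd D Q ∈ C := by
          rw [hQ]
          exact sub_mem (mul_mem (natCast_mem C N) hzP) (mul_mem (intCast_mem C φ) (hzv b))
        have hxQ : xc Q ∈ acl K (SS C x B) := by
          rcases hQF with h | h
          · exact absurd h hQ0
          · rw [← hF]
            exact h.1
        obtain ⟨N2, n, h1, h2, h3⟩ := IH Q hQ0 hzQ hxQ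
        refine ⟨N2 * N, fun j => n j + (Pi.single b ((N2 : ℤ) * φ) : τ → ℤ) j,
          Nat.mul_ne_zero h1 hN0, ?_, ?_⟩
        · intro j hj
          show n j + (Pi.single b ((N2 : ℤ) * φ) : τ → ℤ) j = 0
          rw [h2 j hj, zero_add]
          exact hsupp _ (fun h => by rw [hφ h, mul_zero]) j hj
        · have e1 : ∑ j, ((n j + (Pi.single b ((N2 : ℤ) * φ) : τ → ℤ) j : ℤ) : L) * zd D (v j) =
              ∑ j, (n j : L) * zd D (v j) + ((N2 : ℤ) * φ : ℤ) * zd D (v b) := by
            rw [← hsum, ← Finset.sum_add_distrib]
            refine Finset.sum_congr rfl fun j _ => ?_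
            push_cast
            ring
          rw [e1, ← h3, hQ]
          push_cast
          ring
  refine main Finset.univ P0 hP0 hzP0 ?_
  refine ((hACLA K L (SS C x Finset.univ) ∅).1 _).2 ?_
  have e1 : SS C x Finset.univ = (C : Set L) ∪ Set.range fun j => xc (v j) := by
    unfold SS
    rw [Finset.coe_univ, Set.image_univ, hx]
  rw [e1]
  exact hal0

end Pool.Agent.Helper32.TG.TRL
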