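import Pool.Agent.Helper60.TG.GoalsR
import Pool.Agent.Helper32.TG.TRL

/-! # TG-TRLR (MP_a41896_nt): the value of `zd D P` is a combination of the `zd D v_j`, coefficients in `R c` -/

set_option autoImplicit false

open MvPolynomial

namespace Pool.Agent.Helper32.TG.TRLR

open WeierstrassCurve
open Pool.Agent.Helper29.BL Pool.Agent.Helper92.Ru Pool.Agent.Helper42.SG
open Pool.Agent.Helper60.T3 (WL IP zd)
open Pool.Agent.Helper42.TN (NonIsog NoCM)
open Pool.Agent.Helper92.TN (acl ACLA)
open Pool.Agent.Helper60.TG
open Pool.Agent.Helper42.TG (EndL)
open Pool.Agent.Helper32.TG.TRL (ps_sq SS)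

theorem t (hDALG : DALG) (hS : STEPSR) (hN : STEPN) (hACLA : ACLA) : TRLR := by
  intro K L _ _ _ _ _ _ ι _ E hE hNI R _ ac d hd τ _ _ cl v C D hCalg hCD hv hzv c P0 hCM hP0 hzP0 hal0
  haveI : ∀ c, (E c).IsElliptic := hE
  obtain ⟨x, hx⟩ : ∃ x : τ → L, x = fun j => xc (v j) := ⟨_, rfl⟩
  -- the induction
  have main : ∀ (B : Finset τ) (P : (WL L (E c)).Point), P ≠ 0 → zd D P ∈ C →
      xc P ∈ acl K (SS C x B) →
      ∃ (N : ℕ) (n : τ → R c), N ≠ 0 ∧ (∀ j, cl j ≠ c → n j = 0) ∧
        (N : L) * zd D P = ∑ j, algebraMap K L (d c (n j)) * zd D (v j) := by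
    intro B
    induction B using Finset.induction_on with
    | empty =>
      intro P hP hzP hal
      have h1 := (hACLA K L (SS C x ∅) ∅).1 (xc P)
      have h2 : IntermediateField.adjoin K (SS C x ∅) = C := by
        unfold SS
        rw [Finset.coe_empty, Set.image_empty, Set.union_empty]
        exact IntermediateField.adjoin_self K C
      have h3 : IsAlgebraic C (xc P) := by
        have h4 := h1.1 hal
        rw [h2] at h4
        exact h4
      have h5 : D (xc P) = 0 := hCD _ (hCalg _ h3)
      refine ⟨1, fun _ => 0, one_ne_zero, fun _ _ => rfl, ?_⟩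
      have h6 : zd D P = 0 := by
        unfold zd
        rw [h5, zero_div]
      simp [h6]
    | insert b B hb IH =>
      intro P hP hzP hal
      obtain ⟨F, hF⟩ : ∃ F : IntermediateField K L, F = acl K (SS C x B) := ⟨_, rfl⟩
      obtain ⟨a1, a2, a3, -, -, -, a7⟩ := hACLA K L (SS C x B) ∅
      have hU : ∀ T : Set L, acl K ((F : Set L) ∪ T) = acl K (SS C x B ∪ T) := by
        intro T
        rw [hF]
        exact (hACLA K L (SS C x B) T).2.2.2.1
      have hSF : SS C x B ⊆ (F : Set L) := by
        rw [hF]
        exact a2
      have hCF : ∀ z ∈ C, z ∈ F := fun z hz => hSF (Or.inl hz)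
      have hFt : ∀ z, z ∈ F ∨ Transcendental F z := by
        rw [hF]
        exact a7 inferInstance
      have hFalg : ∀ z : L, IsAlgebraic F z → z ∈ F := by
        intro z hz
        rcases hFt z with h | h
        · exact h
        · exact absurd hz h
      -- `D` maps `F` to `F`
      have hDF : ∀ z ∈ F, D z ∈ F := by
        intro z hz
        have h4 := (hDALG K L D).2.2.2 (SS C x B) ?_ z ?_
        · rw [hF]
          exact (a1 _).2 h4
        · rintro y (hy | ⟨j, hj, rfl⟩)
          · rw [hCD y hy]
            exact isAlgebraic_zero
          · obtain ⟨hv1, hv2⟩ := hv j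
            have hxj : x j = xc (v j) := by rw [hx]
            have h5 : D (x j) = zd D (v j) * ps (v j) := by
              unfold zd
              rw [hxj, div_mul_cancel₀ _ hv2]
            rw [h5]
            have hmem : ∀ y, y ∈ SS C x B →
                IsAlgebraic (IntermediateField.adjoin K (SS C x B)) y := by
              intro y hy
              exact isAlgebraic_algebraMap
                (⟨y, IntermediateField.subset_adjoin K _ hy⟩ :
                  IntermediateField.adjoin K (SS C x B))
            refine IsAlgebraic.mul (hmem _ (Or.inl (hzv j))) ?_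
            have h6 : IsAlgebraic (IntermediateField.adjoin K (SS C x B)) (ps (v j) ^ 2) := by
              rw [ps_sq (v j) hv1]
              have h7 : Bf (WL L (E (cl j))) (xc (v j)) ∈
                  IntermediateField.adjoin K (SS C x B) := by
                have hxm : xc (v j) ∈ IntermediateField.adjoin K (SS C x B) := by
                  rw [← hxj]
                  exact IntermediateField.subset_adjoin K _ (Or.inr ⟨j, hj, rfl⟩)
                have e2 : (WL L (E (cl j))).b₂ = algebraMap K L (E (cl j)).b₂ :=
                  WeierstrassCurve.map_b₂ _ _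
                have e4 : (WL L (E (cl j))).b₄ = algebraMap K L (E (cl j)).b₄ :=
                  WeierstrassCurve.map_b₄ _ _
                have e6 : (WL L (E (cl j))).b₆ = algebraMap K L (E (cl j)).b₆ :=
                  WeierstrassCurve.map_b₆ _ _
                unfold Bf
                rw [e2, e4, e6]
                have hk : ∀ r : K, algebraMap K L r ∈ IntermediateField.adjoin K (SS C x B) :=
                  fun r => IntermediateField.algebraMap_mem _ r
                have h4m : (4 : L) ∈ IntermediateField.adjoin K (SS C x B) := by
                  have := hk 4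
                  rwa [map_ofNat] at this
                have h2m : (2 : L) ∈ IntermediateField.adjoin K (SS C x B) := by
                  have := hk 2
                  rwa [map_ofNat] at this
                exact add_mem (add_mem (add_mem (mul_mem h4m (pow_mem hxm 3))
                  (mul_mem (hk _) (pow_mem hxm 2))) (mul_mem (mul_mem h2m (hk _)) hxm)) (hk _)
              exact isAlgebraic_algebraMap
                (⟨_, h7⟩ : IntermediateField.adjoin K (SS C x B))
            exact IsAlgebraic.of_pow (by norm_num) h6
        · rw [hF] at hz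
          exact (a1 _).1 hz
      have hins : SS C x (insert b B) = SS C x B ∪ {x b} := by
        unfold SS
        rw [Finset.coe_insert, Set.image_insert_eq, Set.union_assoc, Set.union_singleton]
      rw [hins] at hal
      by_cases hbF : x b ∈ F
      · refine IH P hP hzP ?_
        have e1 : acl K (SS C x B ∪ {x b}) = acl K (SS C x B) := by
          have e2 := hU {x b}
          have e3 := hU ∅
          rw [Set.union_empty, Set.union_empty] at e3
          have e4 : (F : Set L) ∪ {x b} = (F : Set L) :=
            Set.union_eq_left.2 (Set.singleton_subset_iff.2 hbF)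
          rw [e4] at e2
          rw [← e2, e3]
        rw [e1] at hal
        exact hal
      have htr : Transcendental F (xc (v b)) := by
        rcases hFt (x b) with h | h
        · exact absurd h hbF
        · rw [hx] at h
          exact h
      have halP : IsAlgebraic (IntermediateField.adjoin K ((F : Set L) ∪ {xc (v b)})) (xc P) := by
        rw [← hU {x b}] at hal
        have h1 := ((hACLA K L ((F : Set L) ∪ {x b}) ∅).1 (xc P)).1 hal
        rw [hx] at h1
        exact h1
      -- the one-variable step
      have hstep : ∃ (N : ℕ) (φ : R c) (Q : (WL L (E c)).Point), N ≠ 0 ∧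
          (cl b ≠ c → φ = 0) ∧ IP (F : Set L) Q ∧
          zd D Q = N * zd D P - algebraMap K L (d c φ) * zd D (v b) := by
        by_cases hbc : cl b = c
        · subst hbc
          obtain ⟨N, φ, Q, h1, h2, h3⟩ := hS K L (E (cl b)) (R (cl b)) (ac (cl b))
            (d (cl b)) (hCM b rfl) (hd (cl b)) F D hFalg hDF (v b) P (hv b).1 htr (hCF _ (hzv b)) hP (hCF _ hzP) halP
          exact ⟨N, φ, Q, h1, fun h => absurd rfl h, h2, h3⟩
        · obtain ⟨N, Q, h1, h2, h3⟩ := hN K L (E (cl b)) (E c) (hNI _ _ hbc) F D hFalg hDF
            (v b) P (hv b).1 htr (hCF _ (hzv b)) hP (hCF _ hzP) halP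
          exact ⟨N, 0, Q, h1, fun _ => rfl, h2, by rw [h3]; simp⟩
      obtain ⟨N, φ, Q, hN0, hφ, hQF, hQ⟩ := hstep
      have hsum : ∀ a : R c, ∑ j, algebraMap K L (d c ((Pi.single b a : τ → R c) j)) *
          zd D (v j) = algebraMap K L (d c a) * zd D (v b) := by
        intro a
        rw [Finset.sum_eq_single b]
        · rw [Pi.single_eq_same]
        · intro j _ hj
          rw [Pi.single_eq_of_ne hj]
          simp
        · intro h
          exact absurd (Finset.mem_univ b) h
      have hsupp : ∀ a : R c, (cl b ≠ c → a = 0) → ∀ j, cl j ≠ c →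
          (Pi.single b a : τ → R c) j = 0 := by
        intro a ha j hj
        by_cases hjb : j = b
        · subst hjb
          rw [Pi.single_eq_same]
          exact ha hj
        · rw [Pi.single_eq_of_ne hjb]
      by_cases hQ0 : Q = 0
      · have h0 : zd D Q = 0 := by
          rw [hQ0]
          unfold zd
          rw [xc_zero, map_zero, zero_div]
        refine ⟨N, Pi.single b φ, hN0, hsupp φ hφ, ?_⟩
        rw [hsum]
        rw [h0] at hQ
        linear_combination -hQ
      · have hzQ : zd D Q ∈ C := by
          rw [hQ]
          exact sub_mem (mul_mem (natCast_mem C N) hzP) (mul_mem (IntermediateField.algebraMap_mem C _) (hzv b))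
        have hxQ : xc Q ∈ acl K (SS C x B) := by
          rcases hQF with h | h
          · exact absurd h hQ0
          · rw [← hF]
            exact h.1
        obtain ⟨N2, n, h1, h2, h3⟩ := IH Q hQ0 hzQ hxQ
        refine ⟨N2 * N, fun j => n j + (Pi.single b ((N2 : R c) * φ) : τ → R c) j,
          Nat.mul_ne_zero h1 hN0, ?_, ?_⟩
        · intro j hj
          show n j + (Pi.single b ((N2 : R c) * φ) : τ → R c) j = 0
          rw [h2 j hj, zero_add]
          exact hsupp _ (fun h => by rw [hφ h, mul_zero]) j hj
        · have e1 : ∑ j, algebraMap K L (d c (n j + (Pi.single b ((N2 : R c) * φ) :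
                τ → R c) j)) * zd D (v j) =
              ∑ j, algebraMap K L (d c (n j)) * zd D (v j) +
                algebraMap K L (d c ((N2 : R c) * φ)) * zd D (v b) := by
            rw [← hsum, ← Finset.sum_add_distrib]
            refine Finset.sum_congr rfl fun j _ => ?_
            rw [map_add, map_add]
            ring
          rw [e1, ← h3, hQ, map_mul, map_mul, map_natCast, map_natCast]
          push_cast
          ring
  refine main Finset.univ P0 hP0 hzP0 ?_
  refine ((hACLA K L (SS C x Finset.univ) ∅).1 _).2 ?_
  have e1 : SS C x Finset.univ = (C : Set L) ∪ Set.range fun j => xc (v j) := by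
    unfold SS
    rw [Finset.coe_univ, Set.image_univ, hx]
  rw [e1]
  exact hal0

end Pool.Agent.Helper32.TG.TRLR
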